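import Pool.Agent.Helper21.LQ.Defs

set_option autoImplicit false

/-!
# LQ, module FLOW: the capacitated fractional Hall theorem
-/

namespace Pool.Agent.Helper21.LQ

open Finset

/-- Greedy columns: for every nonnegative weight `m` on `S` there is a fractional choice
in the capacities whose weighted row sums are at least the total weight. -/
theorem FLOW_greedy {R Γ : Type} [Fintype R] [DecidableEq R] [Fintype Γ] [DecidableEq Γ]
    (E : Finset R) (cap : R → Γ → ℝ) (hcap : ∀ r γ, 0 ≤ cap r γ)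
    (hall : ∀ S ⊆ E, (S.card : ℝ) ≤ ∑ γ, min 1 (∑ r ∈ S, cap r γ)) (m : R → ℝ) (S : Finset R) :
    S ⊆ E → ∃ y : R → Γ → ℝ, (∀ r γ, 0 ≤ y r γ ∧ y r γ ≤ cap r γ) ∧ (∀ r ∉ S, ∀ γ, y r γ = 0) ∧
      (∀ γ, ∑ r ∈ S, y r γ = min 1 (∑ r ∈ S, cap r γ)) ∧
      ∀ c, 0 ≤ c → (∀ r ∈ S, c ≤ m r) →
        ∑ r ∈ S, m r + c * (∑ γ, min 1 (∑ r ∈ S, cap r γ) - S.card) ≤
          ∑ r ∈ S, m r * ∑ γ, y r γ := by
  refine Finset.induction_on_min_value (motive := fun S => S ⊆ E → ∃ y : R → Γ → ℝ,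
      (∀ r γ, 0 ≤ y r γ ∧ y r γ ≤ cap r γ) ∧ (∀ r ∉ S, ∀ γ, y r γ = 0) ∧
      (∀ γ, ∑ r ∈ S, y r γ = min 1 (∑ r ∈ S, cap r γ)) ∧
      ∀ c, 0 ≤ c → (∀ r ∈ S, c ≤ m r) →
        ∑ r ∈ S, m r + c * (∑ γ, min 1 (∑ r ∈ S, cap r γ) - S.card) ≤
          ∑ r ∈ S, m r * ∑ γ, y r γ) m S ?_ ?_
  · intro _
    refine ⟨fun _ _ => 0, fun r γ => ⟨le_rfl, hcap r γ⟩, fun _ _ _ => rfl, fun γ => ?_, ?_⟩
    · simp
    · intro c _ _
      simp
  · intro r₀ S hr₀ hmin ih hsub
    obtain ⟨y, hy1, hy2, hy3, hy4⟩ := ih ((subset_insert r₀ S).trans hsub)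
    have hmono : ∀ γ, min 1 (∑ r ∈ S, cap r γ) ≤ min 1 (∑ r ∈ insert r₀ S, cap r γ) := by
      intro γ
      refine min_le_min le_rfl ?_
      rw [sum_insert hr₀]
      linarith [hcap r₀ γ]
    have hdiff : ∀ γ, min 1 (∑ r ∈ insert r₀ S, cap r γ) - min 1 (∑ r ∈ S, cap r γ) ≤
        cap r₀ γ := by
      intro γ
      rw [sum_insert hr₀]
      have := hcap r₀ γ
      rcases le_total 1 (∑ r ∈ S, cap r γ) with h | h
      · rw [min_eq_left h, min_eq_left (by linarith)]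
        linarith
      · rw [min_eq_right h]
        have := min_le_right 1 (cap r₀ γ + ∑ r ∈ S, cap r γ)
        linarith
    set y' : R → Γ → ℝ := Function.update y r₀ (fun γ =>
      min 1 (∑ r ∈ insert r₀ S, cap r γ) - min 1 (∑ r ∈ S, cap r γ)) with hy'
    have hy'0 : ∀ γ, y' r₀ γ = min 1 (∑ r ∈ insert r₀ S, cap r γ) -
        min 1 (∑ r ∈ S, cap r γ) := by
      intro γ
      rw [hy', Function.update_self]
    have hy'1 : ∀ r, r ≠ r₀ → y' r = y r := by
      intro r hr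
      rw [hy', Function.update_of_ne hr]
    have hne : ∀ r ∈ S, r ≠ r₀ := fun r hr h => hr₀ (h ▸ hr)
    refine ⟨y', ?_, ?_, ?_, ?_⟩
    · intro r γ
      rcases eq_or_ne r r₀ with rfl | hr
      · rw [hy'0]
        exact ⟨by linarith [hmono γ], hdiff γ⟩
      · rw [hy'1 r hr]
        exact hy1 r γ
    · intro r hr γ
      rw [mem_insert, not_or] at hr
      rw [hy'1 r hr.1]
      exact hy2 r hr.2 γ
    · intro γ
      have h1 : ∑ r ∈ S, y' r γ = ∑ r ∈ S, y r γ :=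
        sum_congr rfl fun r hr => by rw [hy'1 r (hne r hr)]
      rw [sum_insert hr₀ (f := fun r => y' r γ), hy'0, h1, hy3 γ]
      ring
    · intro c hc hcm
      have h1 : ∑ r ∈ S, m r + m r₀ * (∑ γ, min 1 (∑ r ∈ S, cap r γ) - S.card) ≤
          ∑ r ∈ S, m r * ∑ γ, y r γ :=
        hy4 (m r₀) (hc.trans (hcm r₀ (mem_insert_self r₀ S))) hmin
      have h2 := hall (insert r₀ S) hsub
      have h3 : c ≤ m r₀ := hcm r₀ (mem_insert_self r₀ S)
      have h4 : ((insert r₀ S).card : ℝ) = S.card + 1 := by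
        rw [card_insert_of_notMem hr₀]
        push_cast
        ring
      have h5 : ∑ r ∈ S, m r * ∑ γ, y' r γ = ∑ r ∈ S, m r * ∑ γ, y r γ :=
        sum_congr rfl fun r hr => by rw [hy'1 r (hne r hr)]
      have h6 : ∑ γ, y' r₀ γ = ∑ γ, min 1 (∑ r ∈ insert r₀ S, cap r γ) -
          ∑ γ, min 1 (∑ r ∈ S, cap r γ) := by
        rw [← sum_sub_distrib]
        exact sum_congr rfl fun γ _ => hy'0 γ
      rw [sum_insert hr₀ (f := fun r => m r * ∑ γ, y' r γ), h5, h6,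
        sum_insert hr₀ (f := fun r => m r), h4]
      rw [h4] at h2
      nlinarith [mul_nonneg (sub_nonneg.2 h3) (sub_nonneg.2 h2)]

theorem st_FLOW : ST_FLOW := by
  intro R Γ _ _ _ _ E cap hcap hall
  -- the compact convex set
  set cap' : R → Γ → ℝ := fun r γ => if r ∈ E then cap r γ else 0 with hcap'
  set K : Set (R → Γ → ℝ) := {y | (∀ r γ, y r γ ∈ Set.Icc 0 (cap' r γ)) ∧
    ∀ γ, ∑ r, y r γ ≤ 1} with hK
  have hKc : IsCompact K := by
    have h1 : IsCompact (Set.univ.pi fun r : R => (Set.univ.pi fun γ : Γ =>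
        Set.Icc (0 : ℝ) (cap' r γ))) :=
      isCompact_univ_pi fun r => isCompact_univ_pi fun γ => isCompact_Icc
    have h2 : IsClosed {y : R → Γ → ℝ | ∀ γ, ∑ r, y r γ ≤ 1} := by
      simp only [Set.ofPred_forall]
      exact isClosed_iInter fun γ => isClosed_le (by fun_prop) continuous_const
    have h3 : K = (Set.univ.pi fun r : R => (Set.univ.pi fun γ : Γ =>
        Set.Icc (0 : ℝ) (cap' r γ))) ∩ {y : R → Γ → ℝ | ∀ γ, ∑ r, y r γ ≤ 1} := by
      ext y
      simp only [hK, Set.mem_ofPred_eq, Set.mem_inter_iff, Set.mem_pi, Set.mem_univ,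
        forall_true_left]
    rw [h3]
    exact h1.inter_right h2
  have hK0 : K.Nonempty := by
    refine ⟨fun _ _ => 0, fun r γ => ⟨le_rfl, ?_⟩, fun γ => by simp⟩
    simp only [hcap']
    split_ifs
    · exact hcap r γ
    · exact le_rfl
  have hcont : Continuous fun y : R → Γ → ℝ => ∑ r ∈ E, (max 0 (1 - ∑ γ, y r γ)) ^ 2 := by
    fun_prop
  obtain ⟨y, hyK, hymin⟩ := hKc.exists_isMinOn hK0 hcont.continuousOn
  have hymin' : ∀ y' ∈ K, ∑ r ∈ E, (max 0 (1 - ∑ γ, y r γ)) ^ 2 ≤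
      ∑ r ∈ E, (max 0 (1 - ∑ γ, y' r γ)) ^ 2 := fun y' hy' => hymin hy'
  set m : R → ℝ := fun r => max 0 (1 - ∑ γ, y r γ) with hm
  -- first order condition
  have hfirst : ∀ y' ∈ K, ∑ r ∈ E, m r * (∑ γ, y' r γ - ∑ γ, y r γ) ≤ 0 := by
    intro y' hy'
    by_contra hcon
    push Not at hcon
    set d : R → ℝ := fun r => ∑ γ, y' r γ - ∑ γ, y r γ with hd
    set A := ∑ r ∈ E, m r * d r with hA
    set B := ∑ r ∈ E, d r ^ 2 with hB
    have hB0 : 0 ≤ B := sum_nonneg fun r _ => sq_nonneg _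
    obtain ⟨t, ht0, ht1, htB⟩ : ∃ t : ℝ, 0 < t ∧ t ≤ 1 ∧ t * B < 2 * A := by
      refine ⟨min 1 (A / (B + 1)), lt_min one_pos (by positivity), min_le_left _ _, ?_⟩
      have h1 : min 1 (A / (B + 1)) * B ≤ A / (B + 1) * B :=
        mul_le_mul_of_nonneg_right (min_le_right _ _) hB0
      have h2 : A / (B + 1) * B ≤ A := by
        rw [div_mul_eq_mul_div, div_le_iff₀ (by linarith)]
        nlinarith
      linarith
    have hyt : (fun r γ => y r γ + t * (y' r γ - y r γ)) ∈ K := by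
      refine ⟨fun r γ => ?_, fun γ => ?_⟩
      · have h1 := hyK.1 r γ
        have h2 := hy'.1 r γ
        simp only [Set.mem_Icc] at h1 h2 ⊢
        constructor
        · nlinarith [mul_nonneg ht0.le h2.1, mul_nonneg (sub_nonneg.2 ht1) h1.1]
        · nlinarith [mul_nonneg ht0.le (sub_nonneg.2 h2.2),
            mul_nonneg (sub_nonneg.2 ht1) (sub_nonneg.2 h1.2)]
      · have h1 := hyK.2 γ
        have h2 := hy'.2 γ
        rw [sum_add_distrib, ← mul_sum, sum_sub_distrib]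
        nlinarith [mul_nonneg ht0.le (sub_nonneg.2 h2),
          mul_nonneg (sub_nonneg.2 ht1) (sub_nonneg.2 h1)]
    have h3 := hymin' _ hyt
    have h4 : ∑ r ∈ E, (max 0 (1 - ∑ γ, (y r γ + t * (y' r γ - y r γ)))) ^ 2 ≤
        ∑ r ∈ E, (m r - t * d r) ^ 2 := by
      refine sum_le_sum fun r _ => ?_
      have e1 : ∑ γ, (y r γ + t * (y' r γ - y r γ)) = ∑ γ, y r γ + t * d r := by
        rw [sum_add_distrib, ← mul_sum, sum_sub_distrib]
      rw [e1]
      simp only [hm]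
      rcases le_total 0 (1 - ∑ γ, y r γ) with h | h
      · rw [max_eq_right h]
        rcases le_total 0 (1 - (∑ γ, y r γ + t * d r)) with h' | h'
        · rw [max_eq_right h']
          nlinarith
        · rw [max_eq_left h']
          nlinarith [sq_nonneg (1 - ∑ γ, y r γ - t * d r)]
      · rw [max_eq_left h]
        rcases le_total 0 (1 - (∑ γ, y r γ + t * d r)) with h' | h'
        · rw [max_eq_right h']
          nlinarith
        · rw [max_eq_left h']
          nlinarith [sq_nonneg (t * d r)]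
    have h5 : ∑ r ∈ E, (m r - t * d r) ^ 2 = ∑ r ∈ E, m r ^ 2 - 2 * t * A + t ^ 2 * B := by
      rw [hA, hB, mul_sum, mul_sum, ← sum_sub_distrib, ← sum_add_distrib]
      exact sum_congr rfl fun r _ => by ring
    have h6 : ∑ r ∈ E, m r ^ 2 ≤ ∑ r ∈ E, m r ^ 2 - 2 * t * A + t ^ 2 * B := by
      rw [← h5]
      exact h3.trans h4
    nlinarith [mul_pos ht0 (sub_pos.2 htB)]
  -- the greedy competitor
  obtain ⟨y', hy1, hy2, hy3, hy4⟩ := FLOW_greedy E cap hcap hall m E (Subset.refl E)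
  have hy'K : y' ∈ K := by
    refine ⟨fun r γ => ?_, fun γ => ?_⟩
    · simp only [Set.mem_Icc, hcap']
      split_ifs with h
      · exact hy1 r γ
      · rw [hy2 r h γ]
        exact ⟨le_rfl, le_rfl⟩
    · have h1 : ∑ r, y' r γ = ∑ r ∈ E, y' r γ := by
        refine (sum_subset (subset_univ E) fun r _ hr => hy2 r hr γ).symm
      rw [h1, hy3 γ]
      exact min_le_left _ _
  have h1 := hfirst y' hy'K
  have h2 := hy4 0 le_rfl (fun r _ => le_max_left _ _)
  rw [zero_mul, add_zero] at h2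
  have h3 : ∑ r ∈ E, m r * (∑ γ, y' r γ - ∑ γ, y r γ) =
      ∑ r ∈ E, m r * ∑ γ, y' r γ - ∑ r ∈ E, m r * ∑ γ, y r γ := by
    rw [← sum_sub_distrib]
    exact sum_congr rfl fun r _ => by ring
  have h4 : ∑ r ∈ E, m r * ∑ γ, y r γ = ∑ r ∈ E, m r - ∑ r ∈ E, m r ^ 2 := by
    rw [← sum_sub_distrib]
    refine sum_congr rfl fun r _ => ?_
    simp only [hm]
    rcases le_total 0 (1 - ∑ γ, y r γ) with h | h
    · rw [max_eq_right h]
      ring
    · rw [max_eq_left h]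
      ring
  have h5 : ∑ r ∈ E, m r ^ 2 ≤ 0 := by linarith
  have h6 : ∀ r ∈ E, m r ^ 2 = 0 := by
    have := (sum_eq_zero_iff_of_nonneg (fun r _ => sq_nonneg (m r))).1
      (le_antisymm h5 (sum_nonneg fun r _ => sq_nonneg (m r)))
    exact this
  have h7 : ∀ r ∈ E, 1 ≤ ∑ γ, y r γ := by
    intro r hr
    have h8 : m r = 0 := pow_eq_zero_iff (two_ne_zero) |>.1 (h6 r hr)
    have h9 : 1 - ∑ γ, y r γ ≤ m r := le_max_right _ _
    linarith
  have hout : ∀ r ∉ E, ∀ γ, y r γ = 0 := by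
    intro r hr γ
    have h8 := hyK.1 r γ
    simp only [Set.mem_Icc, hcap', if_neg hr] at h8
    exact le_antisymm h8.2 h8.1
  have hle : ∀ r γ, y r γ / ∑ γ', y r γ' ≤ y r γ := by
    intro r γ
    by_cases hr : r ∈ E
    · exact div_le_self (hyK.1 r γ).1 (h7 r hr)
    · rw [hout r hr γ]
      simp
  refine ⟨fun r γ => y r γ / ∑ γ', y r γ', fun r γ => ⟨?_, ?_⟩, fun r hr => ?_,
    fun r hr γ => ?_, fun γ => ?_⟩
  · exact div_nonneg (hyK.1 r γ).1 (sum_nonneg fun γ' _ => (hyK.1 r γ').1)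
  · refine (hle r γ).trans ?_
    by_cases hr : r ∈ E
    · have h8 := (hyK.1 r γ).2
      simp only [hcap', if_pos hr] at h8
      exact h8
    · rw [hout r hr γ]
      exact hcap r γ
  · rw [← sum_div]
    exact div_self (by linarith [h7 r hr])
  · simp only [hout r hr γ, zero_div]
  · exact (sum_le_sum fun r _ => hle r γ).trans (hyK.2 γ)

end Pool.Agent.Helper21.LQ
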