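import Pool.Agent.Helper21.LQ.Defs

set_option autoImplicit false

/-!
# LQ, module PROC: the potential method (derandomized supermartingales)
-/

namespace Pool.Agent.Helper21.LQ

open Finset

theorem st_PROC : ST_PROC := by
  classical
  intro σ ι _ m P Z lam z v e s₀ LN hP0 hlam hcard hv hz hstep
  -- the potential
  obtain ⟨Φ, hΦdef⟩ : ∃ Φ : ℕ → σ → ℝ, ∀ j s, Φ j s = ∑ i ∈ univ.filter (fun i => j ≤ e i),
      Real.exp (lam i * (Z i j s - Z i 0 s₀) - ∑ j' ∈ range j, v i j') := ⟨_, fun _ _ => rfl⟩
  have bound : ∀ j ≤ m, ∀ s, Φ j s ≤ Fintype.card ι → ∀ i, j ≤ e i → Z i j s ≤ z i := by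
    intro j hj s hs i hi
    have h1 : Real.exp (lam i * (Z i j s - Z i 0 s₀) - ∑ j' ∈ range j, v i j') ≤ Φ j s := by
      rw [hΦdef]
      exact single_le_sum (f := fun i => Real.exp (lam i * (Z i j s - Z i 0 s₀) -
        ∑ j' ∈ range j, v i j')) (fun i _ => (Real.exp_pos _).le)
        (mem_filter.2 ⟨mem_univ i, hi⟩)
    have h2 := Real.exp_le_exp.1 (h1.trans (hs.trans hcard))
    have h3 : ∑ j' ∈ range j, v i j' ≤ ∑ j' ∈ range m, v i j' :=
      sum_le_sum_of_subset_of_nonneg (range_subset_range.2 hj)
        (fun j' hj' _ => hv i j' (mem_range.1 hj'))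
    have h4 := hz i
    exact le_of_mul_le_mul_left (by linarith) (hlam i)
  have key : ∀ j ≤ m, ∃ s, P j s ∧ Φ j s ≤ Fintype.card ι := by
    intro j
    induction j with
    | zero =>
      intro _
      refine ⟨s₀, hP0, ?_⟩
      rw [hΦdef]
      simp only [sub_self, mul_zero, range_zero, sum_empty, Real.exp_zero, sum_const,
        nsmul_eq_mul, mul_one]
      exact_mod_cast card_le_univ _
    | succ j ih =>
      intro hj
      obtain ⟨s, hPs, hΦ⟩ := ih (by omega)
      have hjm : j < m := by omega
      obtain ⟨A, instA, p, nxt, hp, hPn, hE⟩ := hstep j hjm s hPs (bound j hjm.le s hΦ)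
      have hsum : ∑ a, p a * Φ (j + 1) (nxt a) ≤ Φ j s := by
        have e1 : ∑ a, p a * Φ (j + 1) (nxt a) =
            ∑ i ∈ univ.filter (fun i => j + 1 ≤ e i),
              Real.exp (lam i * (Z i j s - Z i 0 s₀) - ∑ j' ∈ range (j + 1), v i j') *
              ∑ a, p a * Real.exp (lam i * (Z i (j + 1) (nxt a) - Z i j s)) := by
          simp only [hΦdef, mul_sum]
          rw [sum_comm]
          refine sum_congr rfl fun i _ => sum_congr rfl fun a _ => ?_
          rw [mul_left_comm, ← Real.exp_add]
          congr 2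
          ring
        rw [e1, hΦdef]
        calc ∑ i ∈ univ.filter (fun i => j + 1 ≤ e i),
              Real.exp (lam i * (Z i j s - Z i 0 s₀) - ∑ j' ∈ range (j + 1), v i j') *
              ∑ a, p a * Real.exp (lam i * (Z i (j + 1) (nxt a) - Z i j s))
            ≤ ∑ i ∈ univ.filter (fun i => j + 1 ≤ e i),
              Real.exp (lam i * (Z i j s - Z i 0 s₀) - ∑ j' ∈ range j, v i j') := by
              refine sum_le_sum fun i hi => ?_
              have hi' : j < e i := (mem_filter.1 hi).2
              refine (mul_le_mul_of_nonneg_left (hE i hi') (Real.exp_pos _).le).trans ?_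
              rw [← Real.exp_add, sum_range_succ]
              apply le_of_eq
              congr 1
              ring
          _ ≤ _ := by
              refine sum_le_sum_of_subset_of_nonneg ?_ fun _ _ _ => (Real.exp_pos _).le
              intro i hi
              have hi' := (mem_filter.1 hi).2
              exact mem_filter.2 ⟨mem_univ i, by omega⟩
      have hex : ∃ a, p a ≠ 0 ∧ Φ (j + 1) (nxt a) ≤ Φ j s := by
        by_contra hcon
        push Not at hcon
        have hlt : ∑ a, p a * Φ j s < ∑ a, p a * Φ (j + 1) (nxt a) := by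
          refine sum_lt_sum (fun a _ => ?_) ?_
          · rcases eq_or_ne (p a) 0 with h0 | h0
            · simp [h0]
            · exact mul_le_mul_of_nonneg_left (hcon a h0).le (hp.1 a)
          · have : ∃ a, p a ≠ 0 := by
              by_contra h
              push Not at h
              have := hp.2
              simp [h] at this
            obtain ⟨a, ha⟩ := this
            exact ⟨a, mem_univ a, mul_lt_mul_of_pos_left (hcon a ha)
              (lt_of_le_of_ne (hp.1 a) (Ne.symm ha))⟩
        rw [← sum_mul, hp.2, one_mul] at hlt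
        linarith
      obtain ⟨a, ha, hle⟩ := hex
      exact ⟨nxt a, hPn a ha, hle.trans hΦ⟩
  obtain ⟨s, hPs, hΦ⟩ := key m le_rfl
  exact ⟨s, hPs, bound m le_rfl s hΦ⟩

end Pool.Agent.Helper21.LQ
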